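import Pool.Agent.H22.BinFormVal

/-!
# Monic binary forms whose `d`-th powers sum to `k x^(de)`: exponents close to a multiple of a prime

If a prime `p` divides `d + s` for some `s ≥ 1` with `k e s < p`, or divides `d - s` for some
`0 ≤ s < d` with `k e ((e - 1) s + 1) < p`, then monic binary forms `f_1, ..., f_k` of degree `e`
with `f_1 ^ d + ... + f_k ^ d = k x^(de)` all equal `x^e`.
-/

set_option autoImplicit false

namespace Pool.Agent.Results.MP_b9f8e3_ag.PrimeNearExponent

open Pool.Agent.H22.BinForm

/-- If a prime `p` divides `d + s` with `1 ≤ s` and `k e s < p`, or `d - s` with `0 ≤ s < d` and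
`k e ((e-1) s + 1) < p`, then monic complex binary forms `f_1, ..., f_k` of degree `e` with
`f_1^d + ... + f_k^d = k x^(de)` are all equal to `x^e`. -/
theorem result :
    ∀ k d e p : ℕ, p.Prime →
      ((∃ s : ℕ, 1 ≤ s ∧ p ∣ d + s ∧ k * e * s < p) ∨
        (∃ s : ℕ, s < d ∧ p ∣ d - s ∧ k * e * ((e - 1) * s + 1) < p)) →
      ∀ f : Fin k → MvPolynomial (Fin 2) ℂ,
        (∀ i, (f i).IsHomogeneous e ∧
              MvPolynomial.coeff (Finsupp.single (0 : Fin 2) e) (f i) = 1) →
        ∑ i, f i ^ d = (k : MvPolynomial (Fin 2) ℂ) * MvPolynomial.X 0 ^ (d * e) →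
        ∀ i, f i = MvPolynomial.X 0 ^ e := by
  intro k d e p hp hnear f hf hsum
  have hdX : dehom (MvPolynomial.X 0) = 1 := by simp [dehom]
  have h1 : ∀ i, dehom (f i) = 1 := by
    apply univariate k e d p hp hnear (fun i => dehom (f i))
    · exact fun i => natDegree_dehom_le (hf i).1
    · intro i
      have h2 := coeff_dehom (hf i).1 (Finsupp.single (0 : Fin 2) e) (by simp)
      rw [(hf i).2] at h2
      have h3 : (Finsupp.single (0 : Fin 2) e) 1 = 0 := by simp
      rw [h3] at h2
      exact h2
    · have h2 := congrArg dehom hsum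
      rw [map_sum, map_mul, map_pow, hdX, one_pow, mul_one, map_natCast] at h2
      rw [← h2]
      refine Finset.sum_congr rfl (fun i _ => ?_)
      rw [map_pow]
  exact fun i => eq_X_pow_of_dehom (hf i).1 (h1 i)

end Pool.Agent.Results.MP_b9f8e3_ag.PrimeNearExponent
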